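import Pool.Agent.H30.LT.Targets
import Pool.Agent.H1.AV.COD

/-!
# The Hilbert function of a homogeneous prime ideal
-/

set_option autoImplicit false

namespace Pool.Agent.H86.LT.HIL

open MvPolynomial SC Pool.Agent.H27.LV Pool.Agent.H30.AV Pool.Agent.H30.AW Pool.Agent.H30.AX
  Pool.Agent.H30.LT

/-- the exponent of degree `M + s` obtained by adding `s` to the first coordinate -/
private noncomputable def upx {β M : ℕ} (s : ℕ) (μ : Mon (β + 2) M) : Fin (β + 2) →₀ ℕ :=
  Finsupp.single 0 s + Finsupp.equivFunOnFinite.symm μ.1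

private theorem deg_up {β M : ℕ} (s : ℕ) (μ : Mon (β + 2) M) : (upx s μ).degree = s + M := by
  unfold upx
  rw [map_add, Finsupp.degree_single, Finsupp.degree_eq_sum]
  congr 1
  exact μ.2

private theorem up_inj {β M : ℕ} (s : ℕ) : Function.Injective (upx (β := β) (M := M) s) :=
  fun _ _ h => Subtype.ext (Finsupp.equivFunOnFinite.symm.injective (add_left_cancel h))

/-- the Hilbert function of a homogeneous prime ideal -/
theorem pf_HIL (hNN2 : T_NN2) (hFNT : T_FNT) (hALI : T_ALI) (hLAT : T_LAT) : T_HIL := by
  classical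
  intro k _ _ n β P hP hPh htr
  obtain ⟨t, ht1, -, htQ⟩ := hNN2 k (Zw n) β 0 P (fun j => 0) (Nat.zero_le _) hP hPh
    (fun j => Fin.elim0 j) (by
      intro Q hQ _ hPQ _
      rw [Nat.cast_zero, add_zero, ← htr]
      exact _root_.trdeg_le_of_surjective (Ideal.Quotient.factorₐ k hPQ)
        (Ideal.Quotient.factor_surjective hPQ))
  obtain ⟨m, hm⟩ := hFNT k (Zw n) (P ⊔ Ideal.span (Set.range t))
    (Pool.Agent.H1.AV.isHom_sup hPh (Pool.Agent.H1.AV.isHom_span t ht1))
    (fun Q hQ1 hQ2 hQ3 => htQ Q hQ1 hQ2 (le_sup_left.trans hQ3)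
      (fun i => hQ3 (le_sup_right (a := P) (Ideal.subset_span ⟨i, rfl⟩))))
  have hind := hALI k (Zw n) β m P t hP hPh htr ht1 hm
  obtain ⟨d, e, δ, g0, c, hd, he, hg0, hg0', hli, hrep⟩ :=
    hLAT k (Zw n) β m P t hP hPh ht1 hm hind
  have hδ : ∀ j, δ j ≤ ∑ j, δ j := fun j =>
    Finset.single_le_sum (f := δ) (fun _ _ => Nat.zero_le _) (Finset.mem_univ j)
  set C0 : ℕ := ∑ j, δ j with hC0
  refine ⟨d, C0 + c, hd, fun F _ _ W hW M => ⟨?_, ?_⟩⟩
  · -- linearly independent elements
    have : Module.Finite k (Uf k W (M + (C0 + c))) :=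
      Module.Finite.of_fg ((homogeneousSubmodule_fg (R := k) (σ := Zw n) _).map _)
    have hdeg : ∀ x : Fin d × Mon (β + 2) M,
        (aeval t (monomial (upx (C0 + c - δ x.1) x.2) (1 : k)) * e x.1).IsHomogeneous
          (M + (C0 + c)) := by
      intro x
      have h1 := ((isHomogeneous_monomial (1 : k) (deg_up (C0 + c - δ x.1) x.2)).aeval t ht1).mul
        (he x.1)
      have h2 : 1 * ((C0 + c - δ x.1) + M) + δ x.1 = M + (C0 + c) := by
        have := hδ x.1
        omega
      rw [h2] at h1
      exact h1
    let v : Fin d × Mon (β + 2) M → Uf k W (M + (C0 + c)) := fun x =>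
      ⟨aeval W (aeval t (monomial (upx (C0 + c - δ x.1) x.2) (1 : k)) * e x.1),
        ⟨_, hdeg x, rfl⟩⟩
    have hv : LinearIndependent k v := by
      rw [Fintype.linearIndependent_iff]
      intro l hl
      have h0 : aeval W (∑ j, aeval t (∑ μ : Mon (β + 2) M,
          monomial (upx (C0 + c - δ j) μ) (l (j, μ))) * e j) = 0 := by
        have h1 := congrArg (fun z : Uf k W (M + (C0 + c)) => (z : F)) hl
        simp only [AddSubmonoidClass.coe_finsetSum, SetLike.val_smul, ZeroMemClass.coe_zero] at h1
        rw [← h1, Fintype.sum_prod_type, map_sum]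
        refine Finset.sum_congr rfl fun j _ => ?_
        rw [map_sum, Finset.sum_mul, map_sum]
        refine Finset.sum_congr rfl fun μ _ => ?_
        have h2 : monomial (upx (C0 + c - δ j) μ) (l (j, μ)) =
            l (j, μ) • monomial (upx (C0 + c - δ j) μ) (1 : k) := by
          rw [smul_monomial, smul_eq_mul, mul_one]
        rw [h2, map_smul, smul_mul_assoc, map_smul]
      have h1 := hli _ ((hW _).1 h0)
      rintro ⟨j, μ⟩
      have h2 := congrArg (coeff (upx (C0 + c - δ j) μ)) (congrFun h1 j)
      rw [Pi.zero_apply, coeff_zero, coeff_sum] at h2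
      rw [← h2, Finset.sum_eq_single μ]
      · rw [coeff_monomial, if_pos rfl]
      · intro μ' _ hne
        rw [coeff_monomial, if_neg]
        intro h3
        exact hne (up_inj _ h3)
      · intro h3
        exact absurd (Finset.mem_univ _) h3
    have h1 := hv.fintype_card_le_finrank
    rw [Fintype.card_prod, Fintype.card_fin] at h1
    exact h1
  · -- a spanning family
    set γ : F := aeval W (aeval t g0) with hγ
    have hγ0 : γ ≠ 0 := by
      intro h
      exact hg0' (hind g0 ((hW _).1 h))
    let y : Fin d × Mon (β + 2) (M + (C0 + c)) → F := fun x =>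
      aeval W (aeval t (monomial (Finsupp.equivFunOnFinite.symm x.2.1 -
        Finsupp.single 0 (C0 + δ x.1)) (1 : k)) * e x.1)
    have hy : ∀ u ∈ Uf k W M, γ * u ∈ Submodule.span k (Set.range y) := by
      rintro u ⟨G, hG, rfl⟩
      obtain ⟨h, hh, hhP⟩ := hrep M G hG
      have h1 := (hW _).2 hhP
      rw [map_sub, map_mul, map_sum, sub_eq_zero] at h1
      have h2 : γ * (aeval W : MvPolynomial (Zw n) k →ₐ[k] F).toLinearMap G =
          ∑ j, aeval W (aeval t (h j) * e j) := h1
      rw [h2]
      refine Submodule.sum_mem _ fun j _ => ?_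
      rcases hh j with h0 | ⟨a, ha, hah⟩
      · rw [h0]
        simp
      · rw [(h j).as_sum, map_sum, Finset.sum_mul, map_sum]
        refine Submodule.sum_mem _ fun μ hμ => ?_
        have h3 : monomial μ (coeff μ (h j)) = coeff μ (h j) • monomial μ (1 : k) := by
          rw [smul_monomial, smul_eq_mul, mul_one]
        rw [h3, map_smul, smul_mul_assoc, map_smul]
        refine Submodule.smul_mem _ _ (Submodule.subset_span ?_)
        have hμd : μ.degree = a := by
          by_contra hne
          exact (mem_support_iff.1 hμ) (hah.coeff_eq_zero hne)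
        have hdeg : ∑ i, (μ + Finsupp.single 0 (C0 + δ j) : Fin (β + 2) →₀ ℕ) i =
            M + (C0 + c) := by
          rw [← Finsupp.degree_eq_sum, map_add, Finsupp.degree_single, hμd]
          omega
        refine ⟨(j, ⟨fun i => (μ + Finsupp.single 0 (C0 + δ j) : Fin (β + 2) →₀ ℕ) i, hdeg⟩), ?_⟩
        have h4 : Finsupp.equivFunOnFinite.symm
            (fun i => (μ + Finsupp.single 0 (C0 + δ j) : Fin (β + 2) →₀ ℕ) i) -
            Finsupp.single 0 (C0 + δ j) = μ := by
          ext i
          simp
        show aeval W (aeval t (monomial (Finsupp.equivFunOnFinite.symm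
            (fun i => (μ + Finsupp.single 0 (C0 + δ j) : Fin (β + 2) →₀ ℕ) i) -
            Finsupp.single 0 (C0 + δ j)) (1 : k)) * e j) = _
        rw [h4]
    have : Module.Finite k (Submodule.span k (Set.range y)) :=
      Module.Finite.span_of_finite k (Set.finite_range y)
    have h1 : Module.finrank k (Uf k W M) ≤
        Module.finrank k (Submodule.span k (Set.range y)) := by
      refine LinearMap.finrank_le_finrank_of_injective
        (f := (LinearMap.mulLeft k γ).restrict (p := Uf k W M) (q := Submodule.span k (Set.range y))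
          hy) ?_
      intro x x' hx
      have h2 := congrArg (fun z : Submodule.span k (Set.range y) => (z : F)) hx
      have h3 : γ * (x : F) = γ * (x' : F) := h2
      exact Subtype.ext (mul_left_cancel₀ hγ0 h3)
    refine h1.trans ?_
    have h2 : (Set.range y).finrank k ≤ Fintype.card (Fin d × Mon (β + 2) (M + (C0 + c))) :=
      finrank_range_le_card y
    rw [Fintype.card_prod, Fintype.card_fin] at h2
    exact h2

end Pool.Agent.H86.LT.HIL
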