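import Pool.Agent.H30.LT.Targets

/-!
# Restriction to the hyperplanes, multiplication by the linear forms
-/

set_option autoImplicit false

namespace Pool.Agent.H86.LT.XRO

open MvPolynomial SC Pool.Agent.H27.LV Pool.Agent.H30.AV Pool.Agent.H30.AW Pool.Agent.H30.AX
  Pool.Agent.H30.LT Cardinal

attribute [local instance] MvPolynomial.algebraMvPolynomial

private theorem lin_mul {R 𝔸 τ : Type} [CommRing R] [CommRing 𝔸] [Algebra R 𝔸] [Fintype τ]
    (V V' : Submodule R 𝔸) (η : τ → 𝔸) (h : ∀ s, ∀ u ∈ V, η s * u ∈ V') (G : MvPolynomial τ 𝔸)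
    (hG : G ∈ cof τ V) : lin η * G ∈ cof τ V' := by
  classical
  intro m
  unfold Pool.Agent.H30.LT.lin
  rw [Finset.sum_mul, coeff_sum]
  refine V'.sum_mem fun t _ => ?_
  rw [mul_assoc, coeff_C_mul, coeff_X_mul']
  split_ifs with h1
  · exact h t _ (hG _)
  · rw [mul_zero]
    exact V'.zero_mem

private theorem rank_lt {R 𝔸 τ : Type} [CommRing R] [IsDomain R] [CommRing 𝔸] [IsDomain 𝔸]
    [Algebra R 𝔸] (hRCO : T_RCO) (hinj : Function.Injective (algebraMap R 𝔸))
    (V : Submodule R 𝔸) (hV : Module.rank R V < ℵ₀)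
    (N : Submodule (MvPolynomial τ R) (MvPolynomial τ 𝔸)) (hN : N ≤ cof τ V) :
    Module.rank (MvPolynomial τ R) N < ℵ₀ := by
  refine lt_of_le_of_lt (Submodule.rank_mono hN) ?_
  rw [hRCO R 𝔸 τ V hinj hV]
  exact hV

/-- restriction to the hyperplanes, multiplication by the linear forms -/
theorem pf_XRO (hPRI : T_PRI) (hRCO : T_RCO) : T_XRO := by
  intro R 𝔸 τ _ _ _ _ _ _ V V' p p' ω ω' hinj hV hV' hp hp' hω' hmul
  obtain ⟨hprime, hnot, hne⟩ := hPRI 𝔸 τ p p' ω ω' hp hp' hω'
  set L : Ideal (MvPolynomial τ 𝔸) := Ideal.span {lin ω} with hL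
  set L' : Ideal (MvPolynomial τ 𝔸) := Ideal.span {lin ω, lin ω'} with hL'
  have h1L : lin ω ∈ L := Ideal.subset_span rfl
  have h2L : lin ω' ∈ L' := Ideal.subset_span (Or.inr rfl)
  have hLL : L ≤ L' := Ideal.span_mono (by
    intro x hx
    exact Or.inl hx)
  set N1 := cof τ V ⊓ (⊤ : Ideal (MvPolynomial τ 𝔸)).restrictScalars (MvPolynomial τ R) with hN1
  set N1L := cof τ V ⊓ L.restrictScalars (MvPolynomial τ R) with hN1L
  set N2L := cof τ V' ⊓ L.restrictScalars (MvPolynomial τ R) with hN2L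
  set N2L' := cof τ V' ⊓ L'.restrictScalars (MvPolynomial τ R) with hN2L'
  have f1 := rank_lt hRCO hinj V hV N1 inf_le_left
  have f1L := rank_lt hRCO hinj V hV N1L inf_le_left
  have f2L := rank_lt hRCO hinj V' hV' N2L inf_le_left
  have f2L' := rank_lt hRCO hinj V' hV' N2L' inf_le_left
  have hle : N2L ≤ N2L' := inf_le_inf le_rfl (fun x hx => hLL hx)
  constructor
  · -- multiplication by `lin ω`
    have hm : ∀ G ∈ N1, LinearMap.mulLeft (MvPolynomial τ R) (lin ω) G ∈ N2L := by
      intro G hG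
      refine ⟨lin_mul V V' ω (fun s u hu => (hmul s u hu).1) G hG.1, ?_⟩
      exact L.mul_mem_right G h1L
    have hle1 : Module.rank (MvPolynomial τ R) N1 ≤ Module.rank (MvPolynomial τ R) N2L := by
      refine LinearMap.rank_le_of_injective
        ((LinearMap.mulLeft (MvPolynomial τ R) (lin ω)).restrict hm) ?_
      intro x y hxy
      have h1 := congrArg (fun z : N2L => (z : MvPolynomial τ 𝔸)) hxy
      have h2 : lin ω * (x : MvPolynomial τ 𝔸) = lin ω * (y : MvPolynomial τ 𝔸) := h1
      exact Subtype.ext (mul_left_cancel₀ hne h2)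
    exact Cardinal.toNat_le_toNat hle1 f2L
  · have hm : ∀ G ∈ N1, LinearMap.mulLeft (MvPolynomial τ R) (lin ω') G ∈ N2L' := by
      intro G hG
      refine ⟨lin_mul V V' ω' (fun s u hu => (hmul s u hu).2) G hG.1, ?_⟩
      exact L'.mul_mem_right G h2L
    set f : N1 →ₗ[MvPolynomial τ R] N2L' :=
      (LinearMap.mulLeft (MvPolynomial τ R) (lin ω')).restrict hm with hf
    set g : N1 →ₗ[MvPolynomial τ R] (N2L' ⧸ N2L.submoduleOf N2L') :=
      (N2L.submoduleOf N2L').mkQ.comp f with hg
    have hker : ∀ x : N1, g x = 0 → (x : MvPolynomial τ 𝔸) ∈ N1L := by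
      intro x hx
      have h1 : f x ∈ N2L.submoduleOf N2L' := by
        rw [hg] at hx
        simpa using hx
      have h2 : lin ω' * (x : MvPolynomial τ 𝔸) ∈ N2L := h1
      refine ⟨x.2.1, ?_⟩
      exact (hprime.mem_or_mem h2.2).resolve_left hnot
    have hr1 := LinearMap.rank_range_add_rank_ker g
    have hr2 := Submodule.rank_quotient_add_rank (N2L.submoduleOf N2L')
    have hr3 : Module.rank (MvPolynomial τ R) (N2L.submoduleOf N2L') =
        Module.rank (MvPolynomial τ R) N2L :=
      LinearEquiv.rank_eq (Submodule.submoduleOfEquivOfLe hle)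
    have hr4 : Module.rank (MvPolynomial τ R) (LinearMap.ker g) ≤
        Module.rank (MvPolynomial τ R) N1L := by
      refine LinearMap.rank_le_of_injective
        (LinearMap.codRestrict N1L (N1.subtype.comp (LinearMap.ker g).subtype)
          fun x => hker x.1 (by simp)) ?_
      intro x y hxy
      have h1 := congrArg (fun z : N1L => (z : MvPolynomial τ 𝔸)) hxy
      exact Subtype.ext (Subtype.ext h1)
    have hr5 : Module.rank (MvPolynomial τ R) (LinearMap.range g) ≤
        Module.rank (MvPolynomial τ R) (N2L' ⧸ N2L.submoduleOf N2L') := Submodule.rank_le _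
    have hfin : Module.rank (MvPolynomial τ R) N1 + Module.rank (MvPolynomial τ R) N2L ≤
        Module.rank (MvPolynomial τ R) N2L' + Module.rank (MvPolynomial τ R) N1L := by
      rw [← hr1, ← hr2, hr3]
      calc _ ≤ Module.rank (MvPolynomial τ R) (N2L' ⧸ N2L.submoduleOf N2L') +
            Module.rank (MvPolynomial τ R) N1L + Module.rank (MvPolynomial τ R) N2L := by
            gcongr
        _ = _ := by
            rw [add_assoc, add_assoc, add_comm (Module.rank (MvPolynomial τ R) N1L)]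
    have h1 := Cardinal.toNat_le_toNat hfin (Cardinal.add_lt_aleph0 f2L' f1L)
    rw [Cardinal.toNat_add f1 f2L, Cardinal.toNat_add f2L' f1L] at h1
    exact h1

end Pool.Agent.H86.LT.XRO
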